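import Pool.Agent.H55.AL.A9

/-!
# The arcsine law for complete trajectories of the `3x+1` function

On the average the `k`-th term of a trajectory of the `3x+1` function is about `(3/4)^(k/2)` times the
starting value. For a number `n` with finite total stopping time `t = σ_∞(n)` let `A(n)` be the
proportion of the times `k < t` with `T^k(n) > (3/4)^(k/2) n`, at which the trajectory is above its mean
line. We show that `A(n)` follows asymptotically the arcsine law, for the numbers which reach `1` and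
with respect to natural density, and we determine its joint limit law with the event that the total
stopping time is larger than its mean `2 / log (4/3) * log n`.
-/

set_option autoImplicit false

namespace Pool.Agent.Results.MP_f7abf1_nt.ArcsineLaw

open Filter Topology

/-- the `3x+1` function -/
def T (n : ℕ) : ℕ := if n % 2 = 0 then n / 2 else (3 * n + 1) / 2

/-- `t` is the total stopping time of `n` -/
def IsTotalStoppingTime (n t : ℕ) : Prop := T^[t] n = 1 ∧ ∀ j < t, T^[j] n ≠ 1

/-- the number of the times `k < t` at which the trajectory is above the mean line: `T^k(n) > (3/4)^(k/2) n` -/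
noncomputable def above (n t : ℕ) : ℕ :=
  {k : ℕ | k < t ∧ (n : ℝ) * (3 / 4 : ℝ) ^ ((k : ℝ) / 2) < (T^[k] n : ℕ)}.ncard

/-- the positive integers with the property `P` have the natural density `δ` -/
def HasDensity (P : ℕ → Prop) (δ : ℝ) : Prop :=
  Tendsto (fun N : ℕ => ({n : ℕ | 1 ≤ n ∧ n ≤ N ∧ P n}.ncard : ℝ) / N) atTop (𝓝 δ)

open Classical in
theorem above_eq (n t : ℕ) : ((Finset.range t).filter (Pool.Agent.H55.AL.Cond n)).card = above n t := by
  unfold above
  rw [← Set.ncard_coe_finset]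
  congr 1
  ext k
  simp only [Finset.coe_filter, Finset.mem_range, Set.mem_ofPred_eq]
  exact Iff.rfl

theorem bound_zero (n : ℕ) : Pool.Agent.Results.MP_f7abf1_nt.BlockLaw.bound 0 n =
    2 / Real.log (4 / 3) * Real.log n := by
  unfold Pool.Agent.Results.MP_f7abf1_nt.BlockLaw.bound
  rw [zero_mul, add_zero]

/-- THE ARCSINE LAW. There is `0 < δ ≤ 1`, the natural density of the numbers with finite total stopping
time, equal to `1` iff all are of this kind, such that for all `0 ≤ u ≤ 1` the numbers `n` with finite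
total stopping time `t` and at most `u t` times `k < t` with `T^k(n) > (3/4)^(k/2) n` have the natural
density `δ (2/π) arcsin √u`; those of them with `t > 2 / log (4/3) * log n` have the natural density
`δ (1/π) (arcsin √u - √(u (1 - u)))`, those with `t ≤ 2 / log (4/3) * log n` the natural density
`δ (1/π) (arcsin √u + √(u (1 - u)))`. -/
theorem result : ∃ δ : ℝ, 0 < δ ∧ δ ≤ 1 ∧ (δ = 1 ↔ ∀ n : ℕ, 1 ≤ n → ∃ t, IsTotalStoppingTime n t) ∧
    HasDensity (fun n => ∃ t, IsTotalStoppingTime n t) δ ∧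
    ∀ u : ℝ, 0 ≤ u → u ≤ 1 →
      HasDensity (fun n => ∃ t, IsTotalStoppingTime n t ∧ (above n t : ℝ) ≤ u * t)
        (δ * (2 / Real.pi * Real.arcsin (Real.sqrt u))) ∧
      HasDensity (fun n => ∃ t, IsTotalStoppingTime n t ∧ (above n t : ℝ) ≤ u * t ∧
          2 / Real.log (4 / 3) * Real.log n < t)
        (δ * (1 / Real.pi * (Real.arcsin (Real.sqrt u) - Real.sqrt (u * (1 - u))))) ∧
      HasDensity (fun n => ∃ t, IsTotalStoppingTime n t ∧ (above n t : ℝ) ≤ u * t ∧
          (t : ℝ) ≤ 2 / Real.log (4 / 3) * Real.log n)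
        (δ * (1 / Real.pi * (Real.arcsin (Real.sqrt u) + Real.sqrt (u * (1 - u))))) := by
  classical
  obtain ⟨δ, h0, h1, h2, h3, _⟩ := Pool.Agent.H55.UL.tail
  have hR : ∀ n, Pool.Agent.H55.UL.R n ↔ ∃ t, IsTotalStoppingTime n t := by
    intro n
    constructor
    · intro h
      exact Pool.Agent.H55.UL.exists_IsT h
    · rintro ⟨t, ht⟩
      exact ⟨t, ht.1⟩
  have hRf : Pool.Agent.H55.UL.R = fun n => ∃ t, IsTotalStoppingTime n t := funext fun n => propext (hR n)
  have hpos : ∀ n t : ℕ, IsTotalStoppingTime n t → ¬ ((n : ℝ) ≤ 1) → 0 < t := by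
    intro n t ht hE
    rcases Nat.eq_zero_or_pos t with h | h
    · exfalso
      subst h
      have h5 : n = 1 := ht.1
      exact hE (by rw [h5]; norm_num)
    · exact h
  have hcongr : ∀ {P Q : ℕ → Prop} {l : ℝ}, HasDensity P l → (∀ n : ℕ, ¬ ((n : ℝ) ≤ 1) → (P n ↔ Q n)) → HasDensity Q l := by
    intro P Q l hP h
    exact Pool.Agent.H499R2.ND.dn_congr hP (Pool.Agent.H499R2.ND.zd_bdd 1) fun n _ hE => h n hE
  refine ⟨δ, h0, h1, ?_, ?_, fun u hu0 hu1 => ?_⟩
  · rw [h2]
    exact forall_congr' fun n => imp_congr_right fun _ => hR n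
  · rw [← hRf]
    exact h3
  have d1 := Pool.Agent.H55.AL.dens1 h0.le h1 h3 hu0 hu1
  have d2 := Pool.Agent.H55.AL.dens2 h0.le h1 h3 hu0 hu1
  have d3 := Pool.Agent.H55.AL.dens_sub d1 d2
  have e1 : Pool.Agent.H55.AL.AF u * δ = δ * (2 / Real.pi * Real.arcsin (Real.sqrt u)) := by
    unfold Pool.Agent.H55.AL.AF
    ring
  have e2 : Pool.Agent.H55.AL.JF u * δ =
      δ * (1 / Real.pi * (Real.arcsin (Real.sqrt u) - Real.sqrt (u * (1 - u)))) := by
    unfold Pool.Agent.H55.AL.JF
    ring
  have e3 : Pool.Agent.H55.AL.AF u * δ - Pool.Agent.H55.AL.JF u * δ =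
      δ * (1 / Real.pi * (Real.arcsin (Real.sqrt u) + Real.sqrt (u * (1 - u)))) := by
    unfold Pool.Agent.H55.AL.AF Pool.Agent.H55.AL.JF
    ring
  rw [e3] at d3
  rw [e1] at d1
  rw [e2] at d2
  refine ⟨?_, ?_, ?_⟩
  · refine hcongr d1 fun n hE => ?_
    constructor
    · rintro ⟨t, _, ht, hle⟩
      rw [above_eq] at hle
      exact ⟨t, ht, hle⟩
    · rintro ⟨t, ht, hle⟩
      rw [← above_eq] at hle
      exact ⟨t, hpos n t ht hE, ht, hle⟩
  · refine hcongr d2 fun n hE => ?_
    constructor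
    · rintro ⟨⟨t, _, ht, hle⟩, hN⟩
      rw [above_eq] at hle
      refine ⟨t, ht, hle, ?_⟩
      by_contra hcon
      exact hN ⟨t, ht, by rw [bound_zero]; exact not_lt.1 hcon⟩
    · rintro ⟨t, ht, hle, hlt⟩
      rw [← above_eq] at hle
      refine ⟨⟨t, hpos n t ht hE, ht, hle⟩, ?_⟩
      rintro ⟨t', ht', hle'⟩
      have e4 : t' = t := Pool.Agent.H55.UL.IsT_unique ht' ht
      subst e4
      rw [bound_zero] at hle'
      linarith
  · refine hcongr d3 fun n hE => ?_
    constructor
    · rintro ⟨⟨t, _, ht, hle⟩, ⟨t', ht', hle'⟩⟩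
      rw [above_eq] at hle
      have e4 : t' = t := Pool.Agent.H55.UL.IsT_unique ht' ht
      subst e4
      rw [bound_zero] at hle'
      exact ⟨t', ht, hle, hle'⟩
    · rintro ⟨t, ht, hle, hle'⟩
      rw [← above_eq] at hle
      exact ⟨⟨t, hpos n t ht hE, ht, hle⟩, ⟨t, ht, by rw [bound_zero]; exact hle'⟩⟩

end Pool.Agent.Results.MP_f7abf1_nt.ArcsineLaw
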