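import Mathlib
import Pool.Agent.H15.St.Gam

set_option autoImplicit false

/-!
The scaled total stopping times of the `3x+1` function are large only for the integers whose
trajectory has many terms with a long stopping time.
-/

namespace Pool.Agent.Results.MP_f7abf1_nt.LongStoppingTimes

open scoped ENNReal

/-- The `3x+1` function. -/
def T (n : ℕ) : ℕ := if n % 2 = 0 then n / 2 else (3 * n + 1) / 2

/-- The total stopping time `σ_∞(n)`, in `[0, ∞]`. -/
noncomputable def sigma (n : ℕ) : ℝ≥0∞ := ⨅ (k : ℕ) (_ : T^[k] n = 1), (k : ℝ≥0∞)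

/-- The scaled stopping time constant `γ = limsup σ_∞(n) / log n`, in `[0, ∞]`. -/
noncomputable def gamma : ℝ≥0∞ :=
  Filter.limsup (fun n : ℕ => sigma n / ENNReal.ofReal (Real.log n)) Filter.atTop

/-- The times `i` before the first visit to `1` at which the term `x = T^i n` has a stopping time
larger than `S`: none of `T x, ..., T^S x` is smaller than `x`. -/
def longTimes (S n : ℕ) : Set ℕ :=
  {i | (∀ i' ≤ i, T^[i'] n ≠ 1) ∧ ∀ j, 1 ≤ j → j ≤ S → T^[i] n ≤ T^[i + j] n}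

/-- The number of the terms of the trajectory of `n` before `1` with a stopping time larger than `S`,
in `[0, ∞]`. -/
noncomputable def long (S n : ℕ) : ℝ≥0∞ := ((longTimes S n).encard : ℝ≥0∞)

/-- `β_S = limsup long_S(n) / log n`, in `[0, ∞]`. -/
noncomputable def beta (S : ℕ) : ℝ≥0∞ :=
  Filter.limsup (fun n : ℕ => long S n / ENNReal.ofReal (Real.log n)) Filter.atTop

/-- There is `C > 0` such that for all `S ≥ 1`: (1) for every `n ≥ 2` and every `M ≤ σ_∞(n)` at least
`M / (C S^51) - log n` of the first `M` terms of the trajectory of `n` have a stopping time larger than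
`S`; (2) `long_S(n) ≤ σ_∞(n) ≤ C S^51 (log n + long_S(n))` for every `n ≥ 2`;
(3) `β_S ≤ γ ≤ C S^51 (1 + β_S)`. -/
theorem result : ∃ C : ℝ, 0 < C ∧ ∀ S : ℕ, 1 ≤ S →
    (∀ n : ℕ, 2 ≤ n → ∀ M : ℕ, (∀ i < M, T^[i] n ≠ 1) →
      (M : ℝ) ≤ C * (S : ℝ) ^ 51 * (Real.log n + (longTimes S n ∩ Set.Iio M).ncard)) ∧
    (∀ n : ℕ, 2 ≤ n → long S n ≤ sigma n ∧
      sigma n ≤ ENNReal.ofReal (C * (S : ℝ) ^ 51) * (ENNReal.ofReal (Real.log n) + long S n)) ∧
    beta S ≤ gamma ∧ gamma ≤ ENNReal.ofReal (C * (S : ℝ) ^ 51) * (1 + beta S) := by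
  refine ⟨3 * Pool.Agent.H15.St.K0, ?_, fun S hS => ⟨fun n hn M hM => ?_, fun n hn => ⟨?_, ?_⟩, ?_, ?_⟩⟩
  · have : (0 : ℝ) < Pool.Agent.H15.St.K0 := by
      unfold Pool.Agent.H15.St.K0; positivity
    positivity
  · exact Pool.Agent.H15.St.ineq hn hS M hM
  · exact Pool.Agent.H15.St.long_le_sigma S n
  · exact Pool.Agent.H15.St.sigma_le hn hS
  · exact Pool.Agent.H15.St.beta_le S
  · exact Pool.Agent.H15.St.gamma_le hS

end Pool.Agent.Results.MP_f7abf1_nt.LongStoppingTimes
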