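import Pool.Agent.H33.PD.F
import Pool.Agent.H33.G.R_pool_sql_team_seeded_efc1946e.K1H87.PR.Unif

set_option autoImplicit false

/-! # The scaled total stopping times of the primes

Let `T` be the `3x+1` function. Almost all primes `p` (in the sense of relative density among the primes)
have a total stopping time which is infinite or satisfies `γ_∞(p) = σ_∞(p) / log p ∈ [c - ε, c + ε]`,
`c = (½ log (4/3))⁻¹ = 6.952...`, and their trajectories are straight lines of slope `-1/c` on the
logarithmic scale; the trajectories of almost all primes, with or without a finite total stopping time,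
are straight until they are below `p ^ ε`. More precisely `σ_∞(p)` is infinite or
`c log p + O (√(log p))`, outside an arbitrarily small proportion of the primes, and the second
alternative holds for a positive proportion of the primes. -/

namespace Pool.Agent.Results.MP_f7abf1_nt.ScaledTimesOfPrimes

open Filter Topology

/-- the `3x+1` function -/
def T (n : ℕ) : ℕ := if n % 2 = 0 then n / 2 else (3 * n + 1) / 2

/-- `k` is the total stopping time of `n`: the least `k ≥ 0` with `T^k(n) = 1` -/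
def IsTotalStoppingTime (n k : ℕ) : Prop := T^[k] n = 1 ∧ ∀ j < k, T^[j] n ≠ 1

/-- the constant `c = (½ log (4/3))⁻¹ = 6.952...` -/
noncomputable def c : ℝ := (1 / 2 * Real.log (4 / 3))⁻¹

/-- On the logarithmic scale the first `t` steps of the trajectory of `n` are, up to `ε log n`, a straight
line of slope `-1 / c`. -/
def Straight (ε : ℝ) (n t : ℕ) : Prop :=
  ∀ j ≤ t, |Real.log (T^[j] n : ℕ) - (Real.log n - j / c)| ≤ ε * Real.log n

/-- the number of the primes `p ≤ N` with the property `P` -/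
noncomputable def primesWith (P : ℕ → Prop) (N : ℕ) : ℕ := {p : ℕ | p.Prime ∧ p ≤ N ∧ P p}.ncard

/-- almost all primes have the property `P` -/
def AlmostAllPrimes (P : ℕ → Prop) : Prop :=
  Tendsto (fun N : ℕ => (primesWith P N : ℝ) / Nat.primeCounting N) atTop (𝓝 1)

/-! ### proofs -/

open Pool.Agent.H33.PD
open Pool.Agent.H319R2.Lln (mu)

theorem T_eq : T = Pool.Agent.H499R2.ND.Tn := rfl

open Classical in
theorem primesWith_eq (P : ℕ → Prop) (N : ℕ) :
    primesWith P N = ((Finset.Icc 1 N).filter (fun p => p.Prime ∧ P p)).card := by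
  unfold primesWith
  rw [← Set.ncard_coe_finset]
  congr 1
  ext p
  simp only [Set.mem_ofPred_eq, Finset.coe_filter, Finset.mem_Icc]
  constructor
  · rintro ⟨h1, h2, h3⟩
    exact ⟨⟨h1.one_lt.le, h2⟩, h1, h3⟩
  · rintro ⟨⟨_, h2⟩, h1, h3⟩
    exact ⟨h1, h2, h3⟩

theorem noPrimes_ncard {P : ℕ → Prop} (h : NoPrimes P) {ε : ℝ} (hε : 0 < ε) :
    ∀ᶠ N : ℕ in atTop, (primesWith P N : ℝ) ≤ ε * Nat.primeCounting N := by
  filter_upwards [h ε hε] with N h1
  rw [primesWith_eq]
  refine le_trans (le_of_eq ?_) h1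
  congr!

theorem primesWith_true (N : ℕ) : primesWith (fun _ => True) N = Nat.primeCounting N := by
  rw [primesWith_eq, Nat.primeCounting, Nat.primeCounting', Nat.count_eq_card_filter_range]
  congr 1
  ext p
  simp only [Finset.mem_filter, Finset.mem_range, Finset.mem_Icc, and_true]
  constructor
  · rintro ⟨⟨_, h2⟩, h3⟩
    exact ⟨by omega, h3⟩
  · rintro ⟨h2, h3⟩
    exact ⟨⟨h3.one_lt.le, by omega⟩, h3⟩

theorem primesWith_add (P : ℕ → Prop) (N : ℕ) :
    primesWith P N + primesWith (fun p => ¬ P p) N = Nat.primeCounting N := by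
  rw [← primesWith_true]
  unfold primesWith
  rw [← Set.ncard_union_eq ?_ ((Set.finite_Iic N).subset (fun p hp => hp.2.1))
    ((Set.finite_Iic N).subset (fun p hp => hp.2.1))]
  · congr 1
    ext p
    simp only [Set.mem_union, Set.mem_ofPred_eq]
    tauto
  · rw [Set.disjoint_left]
    rintro p ⟨_, _, h1⟩ ⟨_, _, h2⟩
    exact h2 h1

theorem almostAll_of {P : ℕ → Prop} (h : NoPrimes (fun p => ¬ P p)) : AlmostAllPrimes P := by
  unfold AlmostAllPrimes
  rw [Metric.tendsto_atTop]
  intro ε hε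
  obtain ⟨N₀, hN₀⟩ := eventually_atTop.1 (noPrimes_ncard h (show 0 < ε / 2 by positivity))
  refine ⟨max N₀ 2, fun N hN => ?_⟩
  have h1 := hN₀ N ((le_max_left _ _).trans hN)
  have hN2 : 2 ≤ N := (le_max_right _ _).trans hN
  have hπ : 0 < Nat.primeCounting N := by
    have h2 : Nat.primeCounting 2 ≤ Nat.primeCounting N := Nat.monotone_primeCounting hN2
    have h3 : Nat.primeCounting 2 = 1 := by decide
    omega
  have hπR : (0 : ℝ) < Nat.primeCounting N := by exact_mod_cast hπ
  have hsum : (primesWith P N : ℝ) + primesWith (fun p => ¬ P p) N = Nat.primeCounting N := by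
    exact_mod_cast primesWith_add P N
  rw [Real.dist_eq, abs_lt]
  have e1 : (primesWith P N : ℝ) / Nat.primeCounting N - 1 =
      -((primesWith (fun p => ¬ P p) N : ℝ) / Nat.primeCounting N) := by
    rw [div_sub_one hπR.ne', ← neg_div]
    congr 1
    linarith
  have h4 : (primesWith (fun p => ¬ P p) N : ℝ) / Nat.primeCounting N ≤ ε / 2 := by
    rw [div_le_iff₀ hπR]; exact h1
  have h5 : 0 ≤ (primesWith (fun p => ¬ P p) N : ℝ) / Nat.primeCounting N := by positivity
  rw [e1]
  constructor <;> linarith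

theorem mu_eq (j : ℝ) : mu * j = j / c := by
  unfold mu c
  rw [div_inv_eq_mul]
  ring

theorem c_pos : 0 < c := by
  unfold c
  have := Real.log_pos (show (1 : ℝ) < 4 / 3 by norm_num)
  positivity

theorem mu_c : mu = 1 / c := by
  have := mu_eq 1
  rw [mul_one] at this
  exact this

/-- the upper bound of Chebyshev -/
theorem cheb_upper {N : ℕ} (hN : 2 ≤ N) : (Nat.primeCounting N : ℝ) ≤ 20 * (N / Real.log N) := by
  have h1 := Pool.Agent.W38.PR.bt_unif (a := 1) (q := 1) (N := N) le_rfl hN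
  have h2 : ((1 : ℕ) : ℝ) / Nat.totient 1 = 1 := by simp
  rw [h2, mul_one] at h1
  refine le_trans ?_ h1
  rw [Nat.primeCounting, Nat.primeCounting', Nat.count_eq_card_filter_range]
  have : ((Finset.range (N + 1)).filter Nat.Prime).card ≤
      ((Finset.range N).filter (fun k => (1 + k * 1).Prime)).card := by
    apply Finset.card_le_card_of_injOn (fun p => p - 1)
    · intro p hp
      rw [Finset.mem_coe, Finset.mem_filter, Finset.mem_range] at hp
      have h3 := hp.2.one_lt
      rw [Finset.mem_coe, Finset.mem_filter, Finset.mem_range]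
      beta_reduce
      have e : 1 + (p - 1) * 1 = p := by omega
      rw [e]
      exact ⟨by omega, hp.2⟩
    · intro p hp q hq h
      rw [Finset.mem_coe, Finset.mem_filter] at hp hq
      have h3 := hp.2.one_lt
      have h4 := hq.2.one_lt
      beta_reduce at h
      omega
  exact_mod_cast this

open Pool.Agent.H499R2.ND in
/-- the basin of `1` in the primes -/
theorem basin_primes : ∃ a : ℝ, 0 < a ∧ ∀ᶠ N : ℕ in atTop,
    a * Nat.primeCounting N ≤ primesWith (fun p => ∃ k, T^[k] p = 1) N := by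
  have hacc : ∀ n, 1 ≤ n → (Bas n ↔ Bas (Tn n)) := fun n _ => Bas_inv n
  obtain ⟨δ, _, _, hδ⟩ := dens_side odd_one isCoprime_one_left (Or.inl rfl : (1 : ℤ) = 1 ∨ _)
    (NS_inv hacc)
  have hδ0 : 0 < δ := one_pos (Or.inl rfl) (NS_inv hacc) (a := 1) ⟨le_rfl, 0, rfl⟩ (by norm_num) hδ
  obtain ⟨c₁, hc₁, h₁⟩ := Pool.Agent.K1H87.PR.primes_lin (Or.inl rfl : (1 : ℤ) = 1 ∨ _)
    (le_refl (1 : ℤ)) hδ0
  refine ⟨c₁ / 20, by positivity, ?_⟩
  filter_upwards [h₁, eventually_ge_atTop 2] with N h2 hN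
  have h3 := h2 (NS Bas) (NS_inv hacc) δ hδ le_rfl 0 (by simp)
  have h4 := cheb_upper hN
  have h5 : c₁ / 20 * (Nat.primeCounting N : ℝ) ≤ c₁ * (N / Real.log N) := by
    have := mul_le_mul_of_nonneg_left h4 (show 0 ≤ c₁ / 20 by positivity)
    linarith
  refine h5.trans (h3.trans ?_)
  unfold primesWith
  have hfin : {p : ℕ | p.Prime ∧ p ≤ N ∧ ∃ k, T^[k] p = 1}.Finite :=
    (Set.finite_Iic N).subset (fun p hp => hp.2.1)
  have hsub : {p : ℕ | p.Prime ∧ (N : ℤ) ≤ 4 * (1 * p + 0) ∧ (1 * p + 0 : ℤ) ≤ N ∧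
      (1 : ℤ) * (1 * p + 0) ∈ NS Bas} ⊆ {p : ℕ | p.Prime ∧ p ≤ N ∧ ∃ k, T^[k] p = 1} := by
    rintro p ⟨h6, _, h7, h8⟩
    have e : (1 : ℤ) * (1 * p + 0) = (p : ℤ) := by ring
    rw [e] at h8
    obtain ⟨_, k, hk⟩ := h8
    rw [Int.toNat_natCast] at hk
    exact ⟨h6, by omega, k, hk⟩
  exact_mod_cast Set.ncard_le_ncard hsub hfin

/-- the bad primes of the basin -/
theorem bad_zero {ε : ℝ} (hε : 0 < ε) : NoPrimes (fun p => (∃ k, T^[k] p = 1) ∧
    ¬ ∃ k : ℕ, IsTotalStoppingTime p k ∧ |(k : ℝ) / Real.log p - c| ≤ ε ∧ Straight ε p k) := by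
  have hc := c_pos
  have h0 : 0 < min ε (ε / c) := lt_min hε (by positivity)
  refine (straight_to_one h0).mono fun p hp ⟨hb, hno⟩ => ⟨hb, ?_⟩
  rintro ⟨t, ht, hmin, hprof⟩
  apply hno
  have hlp : 0 < Real.log p := Real.log_pos (by exact_mod_cast hp.one_lt)
  refine ⟨t, ⟨ht, hmin⟩, ?_, fun j hj => ?_⟩
  · have h1 := hprof t le_rfl
    rw [ht, Nat.cast_one, Real.log_one, zero_sub, mu_eq] at h1
    have h2 : (t : ℝ) / Real.log p - c = c / Real.log p * (-Real.log p + t / c) := by
      field_simp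
      ring
    rw [h2, abs_mul, abs_of_pos (show 0 < c / Real.log p by positivity)]
    calc c / Real.log p * |-Real.log p + t / c| ≤ c / Real.log p * (min ε (ε / c) * Real.log p) :=
          mul_le_mul_of_nonneg_left h1 (by positivity)
      _ ≤ c / Real.log p * (ε / c * Real.log p) := by
          gcongr
          exact min_le_right _ _
      _ = ε := by field_simp
  · have h1 := hprof j hj
    rw [mu_eq] at h1
    have e : Real.log (T^[j] p : ℕ) - (Real.log p - j / c) =
        Real.log ((Pool.Agent.H499R2.ND.Tn^[j] p : ℕ) : ℝ) - Real.log p + j / c := by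
      rw [T_eq]; ring
    rw [e]
    exact h1.trans (mul_le_mul_of_nonneg_right (min_le_left _ _) hlp.le)

/-- the primes outside the window -/
theorem window' {ε : ℝ} (hε : 0 < ε) : ∃ K : ℝ, 0 < K ∧ ∀ᶠ N : ℕ in atTop,
    (primesWith (fun p => (∃ k, IsTotalStoppingTime p k) ∧ ¬ ∃ k : ℕ, IsTotalStoppingTime p k ∧
      |(k : ℝ) - c * Real.log p| ≤ K * √(Real.log p)) N : ℝ) ≤ ε * Nat.primeCounting N := by
  classical
  obtain ⟨K, hK, h⟩ := Pool.Agent.H33.PD.window hε
  refine ⟨K, hK, ?_⟩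
  filter_upwards [h] with N hN
  have hN' : (primesWith (OutW K) N : ℝ) ≤ ε * Nat.primeCounting N := by
    rw [primesWith_eq]
    refine le_trans (le_of_eq ?_) hN
    congr!
  refine le_trans ?_ hN'
  have hc : c = 2 / Real.log (4 / 3) := by
    unfold c
    have h1 : Real.log (4 / 3) ≠ 0 := (Real.log_pos (by norm_num)).ne'
    field_simp
  unfold primesWith
  have hfin : {p : ℕ | p.Prime ∧ p ≤ N ∧ OutW K p}.Finite :=
    (Set.finite_Iic N).subset (fun p hp => hp.2.1)
  have hsub : {p : ℕ | p.Prime ∧ p ≤ N ∧ ((∃ k, IsTotalStoppingTime p k) ∧ ¬ ∃ k : ℕ,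
      IsTotalStoppingTime p k ∧ |(k : ℝ) - c * Real.log p| ≤ K * √(Real.log p))} ⊆
      {p : ℕ | p.Prime ∧ p ≤ N ∧ OutW K p} := by
    rintro p ⟨h1, h2, ⟨k, hk⟩, h4⟩
    refine ⟨h1, h2, ⟨k, hk.1⟩, ?_⟩
    rintro ⟨t, h5, h6, h7⟩
    exact h4 ⟨t, ⟨h5, h6⟩, by rw [hc]; exact h7⟩
  exact_mod_cast Set.ncard_le_ncard hsub hfin

/-- THE TOTAL STOPPING TIMES OF THE PRIMES.
(1) For every `ε > 0` the trajectories of almost all primes `p` are straight until they are at most
`p ^ ε`.
(2) For every `ε > 0` almost all primes `p` have no total stopping time, or have a total stopping time `k`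
with `|k / log p - c| ≤ ε` and a trajectory which is straight until it reaches `1`.
(3) For every `ε > 0` there is `K` such that for all large `N` all primes `p ≤ N`, with at most `ε π(N)`
exceptions, have no total stopping time, or have a total stopping time `k` with
`|k - c log p| ≤ K √(log p)`.
(4) There are `a > 0` and `K` such that for all large `N` at least `a π(N)` of the primes `p ≤ N` have a
total stopping time `k` with `|k - c log p| ≤ K √(log p)`. -/
theorem result :
    (∀ ε : ℝ, 0 < ε → AlmostAllPrimes fun p => ∃ t : ℕ,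
      ((T^[t] p : ℕ) : ℝ) ≤ (p : ℝ) ^ ε ∧ Straight ε p t) ∧
    (∀ ε : ℝ, 0 < ε → AlmostAllPrimes fun p => (∀ k, ¬ IsTotalStoppingTime p k) ∨
      ∃ k : ℕ, IsTotalStoppingTime p k ∧ |(k : ℝ) / Real.log p - c| ≤ ε ∧ Straight ε p k) ∧
    (∀ ε : ℝ, 0 < ε → ∃ K : ℝ, 0 < K ∧ ∀ᶠ N : ℕ in atTop, (1 - ε) * Nat.primeCounting N ≤
      primesWith (fun p => (∀ k, ¬ IsTotalStoppingTime p k) ∨
        ∃ k : ℕ, IsTotalStoppingTime p k ∧ |(k : ℝ) - c * Real.log p| ≤ K * √(Real.log p)) N) ∧
    (∃ a K : ℝ, 0 < a ∧ 0 < K ∧ ∀ᶠ N : ℕ in atTop, a * Nat.primeCounting N ≤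
      primesWith (fun p => ∃ k : ℕ, IsTotalStoppingTime p k ∧
        |(k : ℝ) - c * Real.log p| ≤ K * √(Real.log p)) N) := by
  classical
  refine ⟨fun ε hε => ?_, fun ε hε => ?_, fun ε hε => ?_, ?_⟩
  · apply almostAll_of
    refine (straight hε).mono fun p hp hno => ?_
    rintro ⟨m, hm, hprof⟩
    apply hno
    have hp0 : (0 : ℝ) < p := by exact_mod_cast hp.pos
    have hpos : (0 : ℝ) < ((T^[m] p : ℕ) : ℝ) := by
      exact_mod_cast Pool.Agent.H499R2.ND.Tn_iter_pos hp.one_lt.le m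
    refine ⟨m, ?_, fun j hj => ?_⟩
    · rw [← Real.log_le_log_iff hpos (by positivity), Real.log_rpow hp0]
      exact hm
    · have h1 := hprof j hj
      rw [mu_eq] at h1
      have e : Real.log (T^[j] p : ℕ) - (Real.log p - j / c) =
          Real.log ((Pool.Agent.H499R2.ND.Tn^[j] p : ℕ) : ℝ) - Real.log p + j / c := by
        rw [T_eq]; ring
      rw [e]
      exact h1
  · apply almostAll_of
    refine (bad_zero hε).mono fun p _ hno => ?_
    push Not at hno
    obtain ⟨⟨k, hk⟩, h2⟩ := hno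
    refine ⟨⟨k, hk.1⟩, ?_⟩
    rintro ⟨k', h3, h4, h5⟩
    exact h2 k' h3 h4 h5
  · obtain ⟨K, hK, h⟩ := window' hε
    refine ⟨K, hK, ?_⟩
    filter_upwards [h] with N hN
    have h1 := primesWith_add (fun p => (∀ k, ¬ IsTotalStoppingTime p k) ∨
        ∃ k : ℕ, IsTotalStoppingTime p k ∧ |(k : ℝ) - c * Real.log p| ≤ K * √(Real.log p)) N
    have h2 : primesWith (fun p => ¬ ((∀ k, ¬ IsTotalStoppingTime p k) ∨
        ∃ k : ℕ, IsTotalStoppingTime p k ∧ |(k : ℝ) - c * Real.log p| ≤ K * √(Real.log p))) N =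
      primesWith (fun p => (∃ k, IsTotalStoppingTime p k) ∧ ¬ ∃ k : ℕ, IsTotalStoppingTime p k ∧
      |(k : ℝ) - c * Real.log p| ≤ K * √(Real.log p)) N := by
      unfold primesWith
      congr 1
      ext p
      simp only [Set.mem_ofPred_eq, not_or, not_forall, not_not]
    rw [h2] at h1
    have h3 : (primesWith (fun p => (∀ k, ¬ IsTotalStoppingTime p k) ∨
        ∃ k : ℕ, IsTotalStoppingTime p k ∧ |(k : ℝ) - c * Real.log p| ≤ K * √(Real.log p)) N : ℝ) +
      primesWith (fun p => (∃ k, IsTotalStoppingTime p k) ∧ ¬ ∃ k : ℕ, IsTotalStoppingTime p k ∧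
      |(k : ℝ) - c * Real.log p| ≤ K * √(Real.log p)) N = Nat.primeCounting N := by
      exact_mod_cast h1
    linarith
  · obtain ⟨a, ha, hb⟩ := basin_primes
    obtain ⟨K, hK, h⟩ := window' (show 0 < a / 2 by positivity)
    refine ⟨a / 2, K, by positivity, hK, ?_⟩
    filter_upwards [hb, h] with N h1 h2
    have h3 : primesWith (fun p => ∃ k, T^[k] p = 1) N ≤
        primesWith (fun p => ∃ k : ℕ, IsTotalStoppingTime p k ∧
          |(k : ℝ) - c * Real.log p| ≤ K * √(Real.log p)) N +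
        primesWith (fun p => (∃ k, IsTotalStoppingTime p k) ∧ ¬ ∃ k : ℕ, IsTotalStoppingTime p k ∧
          |(k : ℝ) - c * Real.log p| ≤ K * √(Real.log p)) N := by
      unfold primesWith
      refine le_trans (Set.ncard_le_ncard ?_ (((Set.finite_Iic N).subset (fun p hp => hp.2.1)).union
        ((Set.finite_Iic N).subset (fun p hp => hp.2.1)))) (Set.ncard_union_le _ _)
      rintro p ⟨hp1, hp2, hp3⟩
      by_cases h4 : ∃ k : ℕ, IsTotalStoppingTime p k ∧ |(k : ℝ) - c * Real.log p| ≤ K * √(Real.log p)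
      · exact Or.inl ⟨hp1, hp2, h4⟩
      · refine Or.inr ⟨hp1, hp2, ⟨Nat.find hp3, Nat.find_spec hp3, fun j hj => Nat.find_min hp3 hj⟩, h4⟩
    have h4 : (primesWith (fun p => ∃ k, T^[k] p = 1) N : ℝ) ≤
        primesWith (fun p => ∃ k : ℕ, IsTotalStoppingTime p k ∧
          |(k : ℝ) - c * Real.log p| ≤ K * √(Real.log p)) N +
        primesWith (fun p => (∃ k, IsTotalStoppingTime p k) ∧ ¬ ∃ k : ℕ, IsTotalStoppingTime p k ∧
          |(k : ℝ) - c * Real.log p| ≤ K * √(Real.log p)) N := by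
      exact_mod_cast h3
    linarith

end Pool.Agent.Results.MP_f7abf1_nt.ScaledTimesOfPrimes
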