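import Pool.Agent.H55.UL.Fin

/-!
# The uniform law for complete trajectories of the `3x+1` function

For a number `n` with finite total stopping time `t = σ_∞(n)` the logarithm of the trajectory goes from
`log n` at time `0` to `0` at time `t`. Let `U(n)` be the proportion of the times `k < t` at which the
trajectory is above the chord, that is `log T^k(n) > (1 - k / t) log n`. We show that `U(n)` is
asymptotically uniformly distributed on `[0, 1]`, for the numbers which reach `1` and with respect to
natural density, and that it is asymptotically independent of the total stopping time, which is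
asymptotically normal.
-/

set_option autoImplicit false

namespace Pool.Agent.Results.MP_f7abf1_nt.UniformLaw

open Filter Topology

/-- the `3x+1` function -/
def T (n : ℕ) : ℕ := if n % 2 = 0 then n / 2 else (3 * n + 1) / 2

/-- `t` is the total stopping time of `n` -/
def IsTotalStoppingTime (n t : ℕ) : Prop := T^[t] n = 1 ∧ ∀ j < t, T^[j] n ≠ 1

/-- the number of the times `k < t` at which the trajectory is above the chord: `T^k(n) > n ^ (1 - k / t)` -/
noncomputable def above (n t : ℕ) : ℕ := {k : ℕ | k < t ∧ (n : ℝ) ^ (1 - (k : ℝ) / t) < (T^[k] n : ℕ)}.ncard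

/-- the positive integers with the property `P` have the natural density `δ` -/
def HasDensity (P : ℕ → Prop) (δ : ℝ) : Prop :=
  Tendsto (fun N : ℕ => ({n : ℕ | 1 ≤ n ∧ n ≤ N ∧ P n}.ncard : ℝ) / N) atTop (𝓝 δ)

/-- `2 / log (4/3) * log n + z * log 3 * √(2 log n / (log (4/3))^3)` -/
noncomputable def bound (z : ℝ) (n : ℕ) : ℝ :=
  2 / Real.log (4 / 3) * Real.log n
    + z * (Real.log 3 * Real.sqrt (2 * Real.log n / Real.log (4 / 3) ^ 3))

/-- The distribution function of the standard normal law. -/
noncomputable def Phi (x : ℝ) : ℝ :=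
  ProbabilityTheory.cdf (ProbabilityTheory.gaussianReal 0 1) x

open Classical in
theorem above_eq (n t : ℕ) : ((Finset.range t).filter (Pool.Agent.H55.UL.Above n t)).card = above n t := by
  unfold above
  rw [← Set.ncard_coe_finset]
  congr 1
  ext k
  simp only [Finset.coe_filter, Finset.mem_range, Set.mem_ofPred_eq]
  exact Iff.rfl

/-- THE UNIFORM LAW. There is `0 < δ ≤ 1`, the natural density of the numbers with finite total stopping
time, equal to `1` iff all are of this kind, such that for all `0 ≤ u ≤ 1`: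
(1) the numbers `n` with finite total stopping time `t` and at most `u t` times `k < t` with
`T^k(n) > n ^ (1 - k / t)` have the natural density `δ u`;
(2) for every real `z` those of them with total stopping time at most `bound z n` have the natural
density `δ u Φ(z)`. -/
theorem result : ∃ δ : ℝ, 0 < δ ∧ δ ≤ 1 ∧ (δ = 1 ↔ ∀ n : ℕ, 1 ≤ n → ∃ t, IsTotalStoppingTime n t) ∧
    HasDensity (fun n => ∃ t, IsTotalStoppingTime n t) δ ∧
    ∀ u : ℝ, 0 ≤ u → u ≤ 1 →
      HasDensity (fun n => ∃ t, IsTotalStoppingTime n t ∧ (above n t : ℝ) ≤ u * t) (δ * u) ∧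
      ∀ z : ℝ, HasDensity (fun n => ∃ t, IsTotalStoppingTime n t ∧ (above n t : ℝ) ≤ u * t ∧
        (t : ℝ) ≤ bound z n) (δ * u * Phi z) := by
  classical
  obtain ⟨δ, h0, h1, h2, h3, _⟩ := Pool.Agent.H55.UL.tail
  have hR : ∀ n, Pool.Agent.H55.UL.R n ↔ ∃ t, IsTotalStoppingTime n t := by
    intro n
    constructor
    · intro h
      exact Pool.Agent.H55.UL.exists_IsT h
    · rintro ⟨t, ht⟩
      exact ⟨t, ht.1⟩
  have hRf : Pool.Agent.H55.UL.R = fun n => ∃ t, IsTotalStoppingTime n t := funext fun n => propext (hR n)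
  refine ⟨δ, h0, h1, ?_, ?_, fun u hu0 hu1 => ⟨?_, fun z => ?_⟩⟩
  · rw [h2]
    exact forall_congr' fun n => imp_congr_right fun _ => hR n
  · rw [← hRf]
    exact h3
  · have h4 := Pool.Agent.H55.UL.dens_transfer (A := Pool.Agent.H55.UL.PU u) (B := Pool.Agent.H55.UL.R) hu0 hu1
      (fun v ε hε => by
        filter_upwards [Pool.Agent.H55.UL.marginal_class v hε] with X hX
        exact hX u hu0 hu1) h3
    rw [mul_comm] at h4
    refine Pool.Agent.H499R2.ND.dn_congr h4 (Pool.Agent.H499R2.ND.zd_bdd 1) fun n hn hE => ?_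
    constructor
    · rintro ⟨t, ht0, ht, hle⟩
      rw [above_eq] at hle
      exact ⟨t, ht, hle⟩
    · rintro ⟨t, ht, hle⟩
      rw [← above_eq] at hle
      refine ⟨t, ?_, ht, hle⟩
      rcases Nat.eq_zero_or_pos t with h | h
      · exfalso
        subst h
        have h5 : n = 1 := ht.1
        exact hE (by rw [h5]; norm_num)
      · exact h
  · have h4 := Pool.Agent.H55.UL.dens_transfer
      (A := fun n => Pool.Agent.H55.UL.PU u n ∧ Pool.Agent.H55.UL.NZ z n) (B := Pool.Agent.H55.UL.NZ z) hu0 hu1
      (fun v ε hε => by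
        filter_upwards [Pool.Agent.H55.UL.joint_class z v hε] with X hX
        exact hX u hu0 hu1) (Pool.Agent.H55.UL.normal z h3)
    have e : u * (δ * Pool.Agent.Results.MP_f7abf1_nt.BlockLaw.Phi z) = δ * u * Phi z := by
      unfold Phi Pool.Agent.Results.MP_f7abf1_nt.BlockLaw.Phi
      ring
    rw [e] at h4
    refine Pool.Agent.H499R2.ND.dn_congr h4 (Pool.Agent.H499R2.ND.zd_bdd 1) fun n hn hE => ?_
    constructor
    · rintro ⟨⟨t, ht0, ht, hle⟩, ⟨t', ht', hle'⟩⟩
      rw [above_eq] at hle
      have e1 : t' = t := Pool.Agent.H55.UL.IsT_unique ht' ht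
      subst e1
      exact ⟨t', ht, hle, hle'⟩
    · rintro ⟨t, ht, hle, hle'⟩
      rw [← above_eq] at hle
      refine ⟨⟨t, ?_, ht, hle⟩, ⟨t, ht, hle'⟩⟩
      rcases Nat.eq_zero_or_pos t with h | h
      · exfalso
        subst h
        have h5 : n = 1 := ht.1
        exact hE (by rw [h5]; norm_num)
      · exact h

end Pool.Agent.Results.MP_f7abf1_nt.UniformLaw
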